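import Pool.Agent.N669.CQ.Stm

/-!
# Project CQ, part PL: moving one side of a quadrilateral
-/

set_option autoImplicit false

namespace Pool.Agent.N310.CQPL

open Pool.Agent.N669.CQ Filter Topology

/-- a function continuous at `0` and positive there is eventually positive -/
theorem ev_pos {F : ℝ → ℝ} (hF : ContinuousAt F 0) (h0 : 0 < F 0) : ∀ᶠ e in 𝓝 (0 : ℝ), 0 < F e :=
  hF.eventually (lt_mem_nhds h0)

theorem t_PL : S_PL := by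
  intro a b c d h p q r hφ
  obtain ⟨a1, a2⟩ := a
  obtain ⟨b1, b2⟩ := b
  obtain ⟨c1, c2⟩ := c
  obtain ⟨d1, d2⟩ := d
  obtain ⟨ta, tb, tc, td⟩ := h
  simp only [cr, Prod.fst_sub, Prod.snd_sub] at ta tb tc td hφ
  obtain ⟨α, hα⟩ : ∃ α, α = p * a1 + q * a2 + r := ⟨_, rfl⟩
  obtain ⟨β, hβ⟩ : ∃ β, β = p * b1 + q * b2 + r := ⟨_, rfl⟩
  obtain ⟨γ, hγ⟩ : ∃ γ, γ = p * c1 + q * c2 + r := ⟨_, rfl⟩
  obtain ⟨δ, hδ⟩ : ∃ δ, δ = p * d1 + q * d2 + r := ⟨_, rfl⟩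
  obtain ⟨D, hD⟩ : ∃ D, D = (b1 - a1) * (d2 - a2) - (b2 - a2) * (d1 - a1) := ⟨_, rfl⟩
  obtain ⟨C, hC⟩ : ∃ C, C = (b1 - a1) * (c2 - a2) - (b2 - a2) * (c1 - a1) := ⟨_, rfl⟩
  obtain ⟨W, hW⟩ : ∃ W, W = (d1 - a1) * (c2 - b2) - (d2 - a2) * (c1 - b1) := ⟨_, rfl⟩
  have hD0 : 0 < D := by rw [hD]; linarith
  have hC0 : 0 < C := by rw [hC]; linarith
  have hαβ : α + β < 0 := by rw [hα, hβ]; exact hφ
  -- the functions
  obtain ⟨σ, hσ⟩ : ∃ σ : ℝ → ℝ, σ = fun e => α / (D + e * (δ - α)) := ⟨_, rfl⟩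
  obtain ⟨τ, hτ⟩ : ∃ τ : ℝ → ℝ, τ = fun e => β / (C + e * (γ - β)) := ⟨_, rfl⟩
  have cσ : ContinuousAt σ 0 := by
    rw [hσ]
    refine ContinuousAt.div continuousAt_const (by fun_prop) ?_
    simpa using hD0.ne'
  have cτ : ContinuousAt τ 0 := by
    rw [hτ]
    refine ContinuousAt.div continuousAt_const (by fun_prop) ?_
    simpa using hC0.ne'
  have E1 : ∀ᶠ e in 𝓝 (0 : ℝ), 0 < D + e * (δ - α) :=
    ev_pos (F := fun e => D + e * (δ - α)) (by fun_prop) (by simpa using hD0)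
  have E2 : ∀ᶠ e in 𝓝 (0 : ℝ), 0 < C + e * (γ - β) :=
    ev_pos (F := fun e => C + e * (γ - β)) (by fun_prop) (by simpa using hC0)
  have E3 : ∀ᶠ e in 𝓝 (0 : ℝ), 0 < C + e * γ :=
    ev_pos (F := fun e => C + e * γ) (by fun_prop) (by simpa using hC0)
  have E4 : ∀ᶠ e in 𝓝 (0 : ℝ), 0 < 1 + e * σ e :=
    ev_pos (F := fun e => 1 + e * σ e) (by fun_prop) (by simp)
  have E5 : ∀ᶠ e in 𝓝 (0 : ℝ), 0 < 1 + e * τ e :=
    ev_pos (F := fun e => 1 + e * τ e) (by fun_prop) (by simp)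
  have E6 : ∀ᶠ e in 𝓝 (0 : ℝ), 0 < (a1 + (-(e * σ e)) * (d1 - a1) - d1) *
      (b2 + (-(e * τ e)) * (c2 - b2) - (a2 + (-(e * σ e)) * (d2 - a2))) -
      (a2 + (-(e * σ e)) * (d2 - a2) - d2) *
      (b1 + (-(e * τ e)) * (c1 - b1) - (a1 + (-(e * σ e)) * (d1 - a1))) :=
    ev_pos (F := fun e => (a1 + (-(e * σ e)) * (d1 - a1) - d1) *
      (b2 + (-(e * τ e)) * (c2 - b2) - (a2 + (-(e * σ e)) * (d2 - a2))) -
      (a2 + (-(e * σ e)) * (d2 - a2) - d2) *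
      (b1 + (-(e * τ e)) * (c1 - b1) - (a1 + (-(e * σ e)) * (d1 - a1)))) (by fun_prop)
      (by simp only [zero_mul, neg_zero, add_zero]; linarith)
  have E7 : ∀ᶠ e in 𝓝 (0 : ℝ), 0 < (b1 + (-(e * τ e)) * (c1 - b1) - (a1 + (-(e * σ e)) * (d1 - a1))) *
      (c2 - (b2 + (-(e * τ e)) * (c2 - b2))) -
      (b2 + (-(e * τ e)) * (c2 - b2) - (a2 + (-(e * σ e)) * (d2 - a2))) *
      (c1 - (b1 + (-(e * τ e)) * (c1 - b1))) :=
    ev_pos (F := fun e => (b1 + (-(e * τ e)) * (c1 - b1) - (a1 + (-(e * σ e)) * (d1 - a1))) *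
      (c2 - (b2 + (-(e * τ e)) * (c2 - b2))) -
      (b2 + (-(e * τ e)) * (c2 - b2) - (a2 + (-(e * σ e)) * (d2 - a2))) *
      (c1 - (b1 + (-(e * τ e)) * (c1 - b1)))) (by fun_prop)
      (by simp only [zero_mul, neg_zero, add_zero]; linarith)
  have E8 : ∀ᶠ e in 𝓝 (0 : ℝ), 0 < -(σ e * D + τ e * C + e * σ e * τ e * W) :=
    ev_pos (F := fun e => -(σ e * D + τ e * C + e * σ e * τ e * W)) (by fun_prop) (by
      have h1 : σ 0 * D = α := by rw [hσ]; simp [hD0.ne']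
      have h2 : τ 0 * C = β := by rw [hτ]; simp [hC0.ne']
      show 0 < -(σ 0 * D + τ 0 * C + 0 * σ 0 * τ 0 * W)
      rw [h1, h2]; linarith)
  have E := (((((((E1.and E2).and E3).and E4).and E5).and E6).and E7).and E8)
  have E' := (E.filter_mono (nhdsWithin_le_nhds (s := Set.Ioi (0 : ℝ)))).and
    (self_mem_nhdsWithin (a := (0 : ℝ)) (s := Set.Ioi (0 : ℝ)))
  obtain ⟨e, ⟨⟨⟨⟨⟨⟨⟨⟨e1, e2⟩, e3⟩, e4⟩, e5⟩, e6⟩, e7⟩, e8⟩, e0⟩⟩ := E'.exists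
  have e0 : 0 < e := e0
  obtain ⟨s, hs⟩ : ∃ s, s = -(e * σ e) := ⟨_, rfl⟩
  obtain ⟨t, ht⟩ : ∃ t, t = -(e * τ e) := ⟨_, rfl⟩
  have hs1 : s < 1 := by rw [hs]; linarith
  have ht1 : t < 1 := by rw [ht]; linarith
  have hsa : s * (D + e * (δ - α)) + e * α = 0 := by
    rw [hs, hσ]; field_simp; ring
  have htb : t * (C + e * (γ - β)) + e * β = 0 := by
    rw [ht, hτ]; field_simp; ring
  rw [← hs, ← ht] at e6 e7
  have e8' : 0 < e * -(σ e * D + τ e * C + e * σ e * τ e * W) := mul_pos e0 e8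
  have hA : 0 < s * D + t * C - s * t * W := by
    rw [hs, ht]; nlinarith [e8']
  obtain ⟨l, hl⟩ : ∃ l, l = ((b1 + t * (c1 - b1) - (a1 + s * (d1 - a1))) *
      (c2 - (a2 + s * (d2 - a2))) - (b2 + t * (c2 - b2) - (a2 + s * (d2 - a2))) *
      (c1 - (a1 + s * (d1 - a1)))) / (C + e * γ) := ⟨_, rfl⟩
  refine ⟨s, t, e, l, hs1, ht1, e0, ?_, ⟨?_, ?_, ?_, ?_⟩, ?_, ?_⟩
  · rw [hl]
    apply div_pos _ e3
    linarith
  · simp only [cr, Prod.fst_sub, Prod.snd_sub, Prod.fst_add, Prod.snd_add, Prod.smul_fst,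
      Prod.smul_snd, smul_eq_mul]
    exact e6
  · simp only [cr, Prod.fst_sub, Prod.snd_sub, Prod.fst_add, Prod.snd_add, Prod.smul_fst,
      Prod.smul_snd, smul_eq_mul]
    exact e7
  · simp only [cr, Prod.fst_sub, Prod.snd_sub, Prod.fst_add, Prod.snd_add, Prod.smul_fst,
      Prod.smul_snd, smul_eq_mul]
    have := mul_pos (sub_pos.2 ht1) tc
    linarith
  · simp only [cr, Prod.fst_sub, Prod.snd_sub, Prod.fst_add, Prod.snd_add, Prod.smul_fst,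
      Prod.smul_snd, smul_eq_mul]
    have := mul_pos (sub_pos.2 hs1) td
    linarith
  · simp only [ar, cr, Prod.fst_sub, Prod.snd_sub, Prod.fst_add, Prod.snd_add, Prod.smul_fst,
      Prod.smul_snd, smul_eq_mul]
    rw [hD, hC, hW] at hA
    linarith
  · rintro ⟨x1, x2⟩
    simp only [cr, Prod.fst_sub, Prod.snd_sub, Prod.fst_add, Prod.snd_add, Prod.smul_fst,
      Prod.smul_snd, smul_eq_mul]
    rw [hl, div_mul_eq_mul_div, eq_div_iff e3.ne']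
    obtain ⟨A1, hA1⟩ : ∃ A1, A1 = a1 + s * (d1 - a1) := ⟨_, rfl⟩
    obtain ⟨A2, hA2⟩ : ∃ A2, A2 = a2 + s * (d2 - a2) := ⟨_, rfl⟩
    obtain ⟨B1, hB1⟩ : ∃ B1, B1 = b1 + t * (c1 - b1) := ⟨_, rfl⟩
    obtain ⟨B2, hB2⟩ : ∃ B2, B2 = b2 + t * (c2 - b2) := ⟨_, rfl⟩
    have LA : (b1 - a1) * (A2 - a2) - (b2 - a2) * (A1 - a1) + e * (p * A1 + q * A2 + r) = 0 := by
      rw [hA1, hA2]
      rw [hD, hα, hδ] at hsa
      linarith
    have LB : (b1 - a1) * (B2 - a2) - (b2 - a2) * (B1 - a1) + e * (p * B1 + q * B2 + r) = 0 := by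
      rw [hB1, hB2]
      rw [hC, hβ, hγ] at htb
      linarith
    rw [hC, hγ, ← hA1, ← hA2, ← hB1, ← hB2]
    obtain ⟨g1, hg1⟩ : ∃ g1, g1 = (b1 - a1) + e * q := ⟨_, rfl⟩
    obtain ⟨g2, hg2⟩ : ∃ g2, g2 = (b2 - a2) - e * p := ⟨_, rfl⟩
    have L1 : ∀ y1 y2 : ℝ, (b1 - a1) * (y2 - a2) - (b2 - a2) * (y1 - a1) +
        e * (p * y1 + q * y2 + r) = g1 * (y2 - A2) - g2 * (y1 - A1) := by
      intro y1 y2
      rw [hg1, hg2]
      linarith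
    have LB' : g1 * (B2 - A2) - g2 * (B1 - A1) = 0 := by rw [← L1]; exact LB
    rw [L1 x1 x2, L1 c1 c2]
    linear_combination (-(x1 - A1) * (c2 - A2) + (x2 - A2) * (c1 - A1)) * LB'

end Pool.Agent.N310.CQPL
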